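import Pool.Agent.Q298.KS.Wt

/-! Project KS (helper240), job SB1: long smooth factors. -/

set_option autoImplicit false

namespace Pool.Agent.Q298.KS

open Finset Pool.Agent.H376R2.MR Pool.Agent.Q240.KS

theorem sb1 (h : S_SMO) : S_SB1 := by
  obtain ⟨C, hC, h⟩ := h
  refine ⟨C, hC, ?_⟩
  intro z t d k ht hk hkd
  have hd : (0 : ℝ) ≤ d := Nat.cast_nonneg d
  have hk' : (k : ℝ) ≠ 0 := by exact_mod_cast hk
  obtain ⟨p, q, hpq, hf⟩ : ∃ p q : ℝ, |p| + |q| ≤ 1 + d ∧
      ∀ n : ℕ, cf z t d n = (p + q * (Real.log n - (d : ℝ) / 20)) * w (20 * Real.log n - d) / n := by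
    by_cases ht1 : t = 1
    · refine ⟨1, 0, ?_, fun n => ?_⟩
      · rw [abs_one, abs_zero]
        linarith
      · unfold cf
        rw [if_neg ht, if_pos ht1]
        ring
    · refine ⟨(d : ℝ) / 20, 1, ?_, fun n => ?_⟩
      · rw [abs_one, abs_of_nonneg (by positivity)]
        linarith
      · unfold cf
        rw [if_neg ht, if_neg ht1]
        ring
  have h1 := h 20 p q (k : ℝ) ((d : ℝ) / 20) (by norm_num) le_rfl hk' hkd
  have e1 : PF z t d k = ∑ n ∈ Icc 1 ⌊Real.exp ((d : ℝ) / 20 + 1)⌋₊,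
      (((p + q * (Real.log n - (d : ℝ) / 20)) * w (20 * (Real.log n - (d : ℝ) / 20)) / n : ℝ) : ℂ) *
        er (-(k : ℝ)) (Real.log n) := by
    have e2 : ∀ n : ℕ, ((cf z t d n : ℝ) : ℂ) * ch k (Real.log n) =
        (((p + q * (Real.log n - (d : ℝ) / 20)) * w (20 * (Real.log n - (d : ℝ) / 20)) / n : ℝ) : ℂ) *
        er (-(k : ℝ)) (Real.log n) := by
      intro n
      rw [ch_eq_er, hf]
      congr 5
      ring
    unfold PF DP
    rw [sum_congr rfl (fun n _ => e2 n)]
    apply sum_subset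
    · unfold sp
      apply Icc_subset_Icc le_rfl
      apply Nat.floor_mono
      apply Real.exp_le_exp.2
      linarith
    · intro n hn hn'
      rw [mem_Icc] at hn
      rw [sp_eq, mem_Ico] at hn'
      have h3 : hi d ≤ n := by
        by_contra h4
        exact hn' ⟨hn.1, by omega⟩
      have h4 : 20 * (Real.log n - (d : ℝ) / 20) = 20 * Real.log n - d := by ring
      rw [h4, w_hi h3]
      simp
  rw [e1]
  refine h1.trans ?_
  have e3 : -(2 * ((d : ℝ) / 20)) = -((d : ℝ) / 10) := by ring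
  rw [e3]
  gcongr

end Pool.Agent.Q298.KS
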