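import Pool.Agent.Q298.KS.Wt
import Pool.Agent.Q53.CR.SDB

/-! Project KS (helper240), job SB2: second derivative test for the factors. -/

set_option autoImplicit false

namespace Pool.Agent.Q298.KS

open Finset Pool.Agent.H376R2.MR Pool.Agent.Q240.KS
open Pool.Agent.Q236.CR (nt)
open Pool.Agent.H469R2.NK (e)

theorem nt_ch (k : ℤ) (n : ℕ) (hn : 1 ≤ n) : nt (k : ℝ) n = ch k (Real.log n) := by
  have hn0 : (n : ℂ) ≠ 0 := by
    have : n ≠ 0 := by omega
    exact_mod_cast this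
  unfold nt ch
  rw [Complex.cpow_def_of_ne_zero hn0]
  have hlog : Complex.log (n : ℂ) = ((Real.log n : ℝ) : ℂ) := (Complex.natCast_log).symm
  rw [hlog]
  congr 1
  push_cast
  ring

theorem e_zero_mul (n : ℕ) : e ((0 : ℝ) * n) = 1 := by
  unfold e
  simp

/-- partial sums over the window: split off the first term -/
theorem window_split (d m : ℕ) (f : ℕ → ℂ) (h : lo d < m) (h2 : m ≤ hi d) :
    ∃ N', lo d ≤ N' ∧ N' ≤ 2 * lo d ∧
      ∑ n ∈ Ico (lo d) m, f n = f (lo d) + ∑ n ∈ Ioc (lo d) N', f n := by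
  refine ⟨m - 1, by omega, le_two_lo (by omega), ?_⟩
  rw [sum_eq_sum_Ico_succ_bot h]
  congr 1
  apply sum_congr _ (fun _ _ => rfl)
  ext n
  rw [mem_Ico, mem_Ioc]
  omega

theorem log_lo_le (d : ℕ) : Real.log (lo d) ≤ 1 + d := by
  have h0 : (0 : ℝ) ≤ d := Nat.cast_nonneg d
  have h1 : (lo d : ℝ) ≤ Real.exp (1 + d) := by
    have h2 := (lo_lt d).le
    have h3 : Real.exp (((d : ℝ) - 1) / 20) ≤ Real.exp d := Real.exp_le_exp.2 (by linarith)
    have h4 : (1 : ℝ) ≤ Real.exp d := Real.one_le_exp h0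
    have h5 : 2 * Real.exp d ≤ Real.exp (1 + d) := by
      rw [Real.exp_add]
      have := Real.exp_one_gt_d9
      have h6 := Real.exp_pos (d : ℝ)
      nlinarith
    linarith
  have h2 : (0 : ℝ) < lo d := by exact_mod_cast one_le_lo d
  rwa [Real.log_le_iff_le_exp h2]

theorem lo_le_exp (d : ℕ) : (lo d : ℝ) ≤ 2 * Real.exp ((d : ℝ) / 20) := by
  have h0 : (0 : ℝ) ≤ d := Nat.cast_nonneg d
  have h2 := (lo_lt d).le
  have h3 : Real.exp (((d : ℝ) - 1) / 20) ≤ Real.exp ((d : ℝ) / 20) :=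
    Real.exp_le_exp.2 (by linarith)
  have h4 : (1 : ℝ) ≤ Real.exp ((d : ℝ) / 20) := Real.one_le_exp (by positivity)
  linarith

theorem sb2 : S_SB2 := by
  obtain ⟨C, hC, h⟩ := Pool.Agent.Q53.CR.sdb
  refine ⟨500 * C, by linarith, ?_⟩
  intro z t d k ht hk
  have hd : (0 : ℝ) ≤ d := Nat.cast_nonneg d
  have hk1 : (1 : ℝ) ≤ |(k : ℝ)| := by
    rw [← Int.cast_abs]
    exact_mod_cast Int.one_le_abs hk
  have hs1 : 1 ≤ √|(k : ℝ)| := by
    rw [← Real.sqrt_one]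
    exact Real.sqrt_le_sqrt hk1
  have hs0 : 0 < √|(k : ℝ)| := by linarith
  have hlo0 : (0 : ℝ) < lo d := by exact_mod_cast one_le_lo d
  have hlo1 : (1 : ℝ) ≤ lo d := by exact_mod_cast one_le_lo d
  have hll := log_lo_le d
  have hll0 : 0 ≤ Real.log (lo d) := Real.log_natCast_nonneg _
  set E := Real.exp ((d : ℝ) / 20) with hE
  have hE0 : 0 < E := Real.exp_pos _
  have hlE := lo_le_exp d
  set B : ℝ := 5 * C * (1 + d) * (√|(k : ℝ)| + E / √|(k : ℝ)|) with hB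
  have hB0 : 0 ≤ B := by positivity
  have hpart : ∀ m, lo d ≤ m → m ≤ hi d → ‖∑ n ∈ Ico (lo d) m, ch k (Real.log n)‖ ≤ B := by
    intro m hm1 hm2
    rcases Nat.eq_or_lt_of_le hm1 with hm | hm
    · rw [← hm, Ico_self, sum_empty, norm_zero]
      exact hB0
    · obtain ⟨N', h1, h2, h3⟩ := window_split d m (fun n => ch k (Real.log n)) hm hm2
      rw [h3]
      have h4 := h (lo d) N' (k : ℝ) 0 (one_le_lo d) h1 h2 hk1
      have h5 : ∑ n ∈ Ioc (lo d) N', e (0 * (n : ℝ)) * nt (k : ℝ) n =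
          ∑ n ∈ Ioc (lo d) N', ch k (Real.log n) := by
        refine sum_congr rfl fun n hn => ?_
        rw [mem_Ioc] at hn
        rw [e_zero_mul, one_mul, nt_ch k n (by have := one_le_lo d; omega)]
      rw [h5] at h4
      refine (norm_add_le _ _).trans ?_
      rw [norm_ch]
      have h6 : C * (√|(k : ℝ)| + (lo d : ℝ) / √|(k : ℝ)|) * (1 + Real.log (lo d)) ≤
          C * (√|(k : ℝ)| + (2 * E) / √|(k : ℝ)|) * (1 + (1 + d)) := by
        gcongr
      have h7 : C * (√|(k : ℝ)| + (2 * E) / √|(k : ℝ)|) * (1 + (1 + d)) ≤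
          4 * C * (1 + d) * (√|(k : ℝ)| + E / √|(k : ℝ)|) := by
        have h8 : √|(k : ℝ)| + (2 * E) / √|(k : ℝ)| ≤ 2 * (√|(k : ℝ)| + E / √|(k : ℝ)|) := by
          have : (2 * E) / √|(k : ℝ)| = 2 * (E / √|(k : ℝ)|) := by ring
          rw [this]
          linarith
        have h9 : (1 : ℝ) + (1 + d) ≤ 2 * (1 + d) := by linarith
        calc C * (√|(k : ℝ)| + (2 * E) / √|(k : ℝ)|) * (1 + (1 + d)) ≤
              C * (2 * (√|(k : ℝ)| + E / √|(k : ℝ)|)) * (2 * (1 + d)) := by gcongr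
          _ = _ := by ring
      have h10 : 1 ≤ C * (1 + d) * (√|(k : ℝ)| + E / √|(k : ℝ)|) := by
        have h11 : 1 ≤ √|(k : ℝ)| + E / √|(k : ℝ)| := by
          have : 0 ≤ E / √|(k : ℝ)| := by positivity
          linarith
        have h12 : 1 ≤ C * (1 + (d : ℝ)) := by nlinarith
        nlinarith
      rw [hB]
      linarith
  have h1 := PF_le_of_part z t d k B hB0 ht hpart
  refine h1.trans (le_of_eq ?_)
  have h2 : |(k : ℝ)| ^ (1 / 2 : ℝ) = √|(k : ℝ)| := by rw [Real.sqrt_eq_rpow]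
  have h3 : |(k : ℝ)| ^ (-(1 / 2) : ℝ) = 1 / √|(k : ℝ)| := by
    rw [Real.rpow_neg (abs_nonneg _), h2, inv_eq_one_div]
  rw [h2, h3, hB]
  have h4 : Real.exp (-((d : ℝ) / 20)) = 1 / E := by
    rw [Real.exp_neg, hE, one_div]
  rw [h4]
  field_simp
  ring

end Pool.Agent.Q298.KS
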