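import Pool.Agent.Q298.KS.Sb2
import Pool.Agent.W903.EH.BK
import Pool.Agent.W347.EH.KT

/-! Project KS (helper240), job SB3: third derivative test for the factors. -/

set_option autoImplicit false

namespace Pool.Agent.Q298.KS

open Finset Pool.Agent.H376R2.MR Pool.Agent.Q240.KS
open Pool.Agent.Helper153.Vdc (ee)
open Pool.Agent.W186.EH (VB)

theorem ee_ch (k : ℤ) (x : ℝ) : ee (-((k : ℝ) / (2 * Real.pi)) * x) = ch k x := by
  unfold ee ch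
  congr 1
  have hpi : ((Real.pi : ℝ) : ℂ) ≠ 0 := by exact_mod_cast Real.pi_ne_zero
  push_cast
  field_simp

theorem ch_conj (k : ℤ) (x : ℝ) : (starRingEnd ℂ) (ch k x) = ch (-k) x := by
  unfold ch
  rw [← Complex.exp_conj]
  congr 1
  simp

theorem VB_three {J x : ℝ} (hJ : 0 < J) (hx : 0 < x) :
    VB 3 J (x / J ^ 3) = J ^ (1 / 2 : ℝ) * x ^ (1 / 6 : ℝ) + J * x ^ (-(1 / 6) : ℝ) := by
  unfold VB
  have e1 : (1 : ℝ) / ((2 : ℝ) ^ 3 - 2) = 1 / 6 := by norm_num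
  have e2 : (1 : ℝ) - 4 / (2 : ℝ) ^ 3 = 1 / 2 := by norm_num
  have e3 : (J ^ 3) ^ (1 / 6 : ℝ) = J ^ (1 / 2 : ℝ) := by
    rw [← Real.rpow_natCast, ← Real.rpow_mul hJ.le]
    norm_num
  have e4 : J ^ (1 / 2 : ℝ) * J ^ (1 / 2 : ℝ) = J := by
    rw [← Real.rpow_add hJ]
    norm_num
  have h1 : (0 : ℝ) < J ^ (1 / 2 : ℝ) := by positivity
  have h2 : (0 : ℝ) < x ^ (1 / 6 : ℝ) := by positivity
  rw [e1, e2, Real.rpow_neg (by positivity), Real.rpow_neg hx.le,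
    Real.div_rpow hx.le (by positivity), e3]
  field_simp
  linear_combination (J ^ (1 / 2 : ℝ) - x ^ (1 / 6 : ℝ) * x ^ (1 / 6 : ℝ)) * e4

theorem part3 (ε : ℝ) (hε : 0 < ε) : ∃ C : ℝ, 1 ≤ C ∧ ∀ (J m : ℕ) (k : ℤ), 1 ≤ J → m ≤ J → 0 < k →
    ‖∑ n ∈ range m, ch k (Real.log ((J : ℝ) + 1 + n))‖ ≤
      C * (J : ℝ) ^ ε * ((J : ℝ) ^ (1 / 2 : ℝ) * (k : ℝ) ^ (1 / 6 : ℝ) +
        J * (k : ℝ) ^ (-(1 / 6) : ℝ)) := by
  obtain ⟨C, hC, hC1⟩ := Pool.Agent.W347.EH.kt 3 (by norm_num) (3 ^ 3) (one_le_pow₀ (by norm_num)) ε hε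
  have hpi := Real.pi_pos
  set c : ℝ := (3 - 1).factorial / (2 * Real.pi * 3 ^ 3) with hc
  have hc0 : 0 < c := by
    rw [hc]
    positivity
  set D : ℝ := c ^ (1 / ((2 : ℝ) ^ 3 - 2)) + c ^ (-(1 / ((2 : ℝ) ^ 3 - 2))) with hD
  have hD0 : 0 < D := by rw [hD]; positivity
  refine ⟨C * D + 1, by have : 0 < C * D := by positivity
                        linarith, ?_⟩
  intro J m k hJ hm hk
  have hk0 : (0 : ℝ) < k := by exact_mod_cast hk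
  have hJ' : (1 : ℝ) ≤ J := by exact_mod_cast hJ
  have hJ0 : (0 : ℝ) < J := by linarith
  set Z : ℝ := k / (2 * Real.pi) with hZ
  have hZ0 : 0 < Z := by rw [hZ]; positivity
  have hlam : Z * ((3 - 1).factorial / (3 * (J : ℝ)) ^ 3) = c * (k / (J : ℝ) ^ 3) := by
    rw [hZ, hc, mul_pow]
    field_simp
  have hx0 : 0 < k / (J : ℝ) ^ 3 := by positivity
  have e1 : ∑ n ∈ range m, ch k (Real.log ((J : ℝ) + 1 + n)) =
      ∑ n ∈ range m, ee (-Z * Real.log ((J : ℝ) + m - n)) := by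
    rw [← Pool.Agent.W903.EH.sum_rev Z J m]
    refine sum_congr rfl fun n _ => ?_
    rw [hZ, ee_ch]
  rw [e1]
  have h1 := hC1 J m (fun n : ℕ => -Z * Real.log ((J : ℝ) + m - n))
      (Z * ((3 - 1).factorial / (3 * (J : ℝ)) ^ 3)) hJ hm (by positivity)
      (Pool.Agent.W903.EH.cond_log (by omega) hZ0 hJ hm)
  refine h1.trans ?_
  rw [hlam]
  have h2 := Pool.Agent.W903.EH.VB_scale (k := 3) (N := (J : ℝ)) hc0 hJ0 hx0
  rw [← hD] at h2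
  have h3 := VB_three hJ0 hk0
  rw [h3] at h2
  have hV0 : 0 ≤ (J : ℝ) ^ (1 / 2 : ℝ) * (k : ℝ) ^ (1 / 6 : ℝ) + J * (k : ℝ) ^ (-(1 / 6) : ℝ) := by
    positivity
  calc C * (J : ℝ) ^ ε * VB 3 J (c * (k / (J : ℝ) ^ 3)) ≤ C * (J : ℝ) ^ ε *
        (D * ((J : ℝ) ^ (1 / 2 : ℝ) * (k : ℝ) ^ (1 / 6 : ℝ) + J * (k : ℝ) ^ (-(1 / 6) : ℝ))) :=
        mul_le_mul_of_nonneg_left h2 (by positivity)
    _ = C * D * ((J : ℝ) ^ ε * ((J : ℝ) ^ (1 / 2 : ℝ) * (k : ℝ) ^ (1 / 6 : ℝ) +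
        J * (k : ℝ) ^ (-(1 / 6) : ℝ))) := by ring
    _ ≤ (C * D + 1) * ((J : ℝ) ^ ε * ((J : ℝ) ^ (1 / 2 : ℝ) * (k : ℝ) ^ (1 / 6 : ℝ) +
        J * (k : ℝ) ^ (-(1 / 6) : ℝ))) := by
        apply mul_le_mul_of_nonneg_right _ (by positivity)
        linarith
    _ = _ := by ring

theorem part3' (ε : ℝ) (hε : 0 < ε) : ∃ C : ℝ, 1 ≤ C ∧ ∀ (J N' : ℕ) (k : ℤ), 1 ≤ J → J ≤ N' →
    N' ≤ 2 * J → k ≠ 0 → ‖∑ n ∈ Ioc J N', ch k (Real.log n)‖ ≤
      C * (J : ℝ) ^ ε * ((J : ℝ) ^ (1 / 2 : ℝ) * |(k : ℝ)| ^ (1 / 6 : ℝ) +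
        J * |(k : ℝ)| ^ (-(1 / 6) : ℝ)) := by
  obtain ⟨C, hC, h⟩ := part3 ε hε
  refine ⟨C, hC, ?_⟩
  intro J N' k hJ hN hN2 hk
  have e0 : ∀ k : ℤ, ∑ n ∈ Ioc J N', ch k (Real.log n) =
      ∑ n ∈ range (N' - J), ch k (Real.log ((J : ℝ) + 1 + n)) := by
    intro k
    have e1 : Ioc J N' = Ico (J + 1) (N' + 1) := by
      ext n
      rw [mem_Ioc, mem_Ico]
      omega
    rw [e1, sum_Ico_eq_sum_range]
    have e2 : N' + 1 - (J + 1) = N' - J := by omega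
    rw [e2]
    refine sum_congr rfl fun n _ => ?_
    push_cast
    rfl
  rcases lt_or_gt_of_ne hk with hk1 | hk1
  · have h1 := h J (N' - J) (-k) hJ (by omega) (by omega)
    have e3 : ∑ n ∈ range (N' - J), ch (-k) (Real.log ((J : ℝ) + 1 + n)) =
        (starRingEnd ℂ) (∑ n ∈ Ioc J N', ch k (Real.log n)) := by
      rw [e0 k, map_sum]
      exact sum_congr rfl fun n _ => (ch_conj k _).symm
    rw [e3, RCLike.norm_conj] at h1
    have e4 : ((-k : ℤ) : ℝ) = |(k : ℝ)| := by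
      rw [abs_of_neg (by exact_mod_cast hk1)]
      push_cast
      rfl
    rw [e4] at h1
    exact h1
  · have h1 := h J (N' - J) k hJ (by omega) hk1
    rw [← e0] at h1
    rw [abs_of_pos (by exact_mod_cast hk1)]
    exact h1

theorem sb3 : S_SB3 := by
  intro ε hε
  obtain ⟨C, hC, h⟩ := part3' ε hε
  refine ⟨100 * (2 * C * (2 : ℝ) ^ ε) * (1 + 2 / ε) * 2, ?_, ?_⟩
  · have h1 : (1 : ℝ) ≤ (2 : ℝ) ^ ε := Real.one_le_rpow (by norm_num) hε.le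
    have h2 : 0 ≤ 2 / ε := by positivity
    have h3 : 1 ≤ C * (2 : ℝ) ^ ε := by nlinarith
    nlinarith [mul_nonneg (show 0 ≤ C * (2 : ℝ) ^ ε by linarith) h2]
  intro z t d k ht hk
  have hd : (0 : ℝ) ≤ d := Nat.cast_nonneg d
  have hk1 : (1 : ℝ) ≤ |(k : ℝ)| := by
    rw [← Int.cast_abs]
    exact_mod_cast Int.one_le_abs hk
  have hk0 : (0 : ℝ) < |(k : ℝ)| := by linarith
  have hJ1 : (1 : ℝ) ≤ lo d := by exact_mod_cast one_le_lo d
  have hJ0 : (0 : ℝ) < lo d := by linarith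
  set E := Real.exp ((d : ℝ) / 20) with hE
  have hE0 : 0 < E := Real.exp_pos _
  have hlE := lo_le_exp d
  rw [← hE] at hlE
  set P : ℝ := |(k : ℝ)| ^ (1 / 6 : ℝ) with hP
  set Q : ℝ := |(k : ℝ)| ^ (-(1 / 6) : ℝ) with hQ
  have hP0 : 0 < P := by positivity
  have hQ0 : 0 < Q := by positivity
  have hP1 : 1 ≤ P := Real.one_le_rpow hk1 (by norm_num)
  set H : ℝ := Real.exp ((d : ℝ) / 40) with hH
  have hH0 : 0 < H := Real.exp_pos _
  have hHE : E = H * H := by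
    rw [hE, hH, ← Real.exp_add]
    congr 1
    ring
  have hJh : (lo d : ℝ) ^ (1 / 2 : ℝ) ≤ 2 * H := by
    rw [← Real.sqrt_eq_rpow]
    apply Real.sqrt_le_iff.2 ⟨by positivity, ?_⟩
    calc (lo d : ℝ) ≤ 2 * E := hlE
      _ ≤ (2 * H) ^ 2 := by rw [hHE]; nlinarith [mul_pos hH0 hH0]
  have hJε : (lo d : ℝ) ^ ε ≤ (2 : ℝ) ^ ε * Real.exp (ε * d / 20) := by
    calc (lo d : ℝ) ^ ε ≤ (2 * E) ^ ε := Real.rpow_le_rpow hJ0.le hlE hε.le
      _ = _ := by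
        rw [Real.mul_rpow (by norm_num) hE0.le, hE, ← Real.exp_mul]
        congr 2
        ring
  have hV1 : 1 ≤ (lo d : ℝ) ^ (1 / 2 : ℝ) * P + lo d * Q := by
    have h1 : 1 ≤ (lo d : ℝ) ^ (1 / 2 : ℝ) := Real.one_le_rpow hJ1 (by norm_num)
    have h2 : 0 < lo d * Q := by positivity
    nlinarith
  have hJε1 : 1 ≤ (lo d : ℝ) ^ ε := Real.one_le_rpow hJ1 hε.le
  set V : ℝ := (lo d : ℝ) ^ (1 / 2 : ℝ) * P + lo d * Q with hV
  have hV2 : V ≤ 2 * (H * P + E * Q) := by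
    have h1 : (lo d : ℝ) ^ (1 / 2 : ℝ) * P ≤ 2 * H * P := mul_le_mul_of_nonneg_right hJh hP0.le
    have h2 : (lo d : ℝ) * Q ≤ 2 * E * Q := mul_le_mul_of_nonneg_right hlE hQ0.le
    rw [hV]
    linarith
  set B : ℝ := 2 * C * (lo d : ℝ) ^ ε * V with hB
  have hB0 : 0 ≤ B := by positivity
  have hpart : ∀ m, lo d ≤ m → m ≤ hi d → ‖∑ n ∈ Ico (lo d) m, ch k (Real.log n)‖ ≤ B := by
    intro m hm1 hm2
    rcases Nat.eq_or_lt_of_le hm1 with hm | hm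
    · rw [← hm, Ico_self, sum_empty, norm_zero]
      exact hB0
    · obtain ⟨N', h1, h2, h3⟩ := window_split d m (fun n => ch k (Real.log n)) hm hm2
      rw [h3]
      have h4 := h (lo d) N' k (one_le_lo d) h1 h2 hk
      refine (norm_add_le _ _).trans ?_
      rw [norm_ch]
      have h5 : 1 ≤ C * (lo d : ℝ) ^ ε * V := by
        have h6 : 1 ≤ C * (lo d : ℝ) ^ ε := by nlinarith
        nlinarith
      rw [hB]
      linarith
  have h1 := PF_le_of_part z t d k B hB0 ht hpart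
  have h4 : Real.exp (-((d : ℝ) / 20)) = 1 / E := by
    rw [Real.exp_neg, hE, one_div]
  have h5 : Real.exp (-((d : ℝ) / 40)) = 1 / H := by
    rw [Real.exp_neg, hH, one_div]
  have h6 : (1 + (d : ℝ)) ≤ (1 + 2 / ε) * Real.exp (ε * d / 2) := by
    have h7 := Real.add_one_le_exp (ε * d / 2)
    have h8 : (1 + 2 / ε) * (ε * d / 2 + 1) ≤ (1 + 2 / ε) * Real.exp (ε * d / 2) := by gcongr
    have h9 : (1 + 2 / ε) * (ε * d / 2 + 1) = ε * d / 2 + 1 + d + 2 / ε := by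
      field_simp
      ring
    have h10 : 0 ≤ 2 / ε := by positivity
    have h11 : 0 ≤ ε * d / 2 := by positivity
    linarith
  rw [h4] at h1
  rw [h5]
  have h7 : Real.exp (ε * d / 20) * Real.exp (ε * d / 2) ≤ Real.exp (ε * d) := by
    rw [← Real.exp_add]
    apply Real.exp_le_exp.2
    have : 0 ≤ ε * d := by positivity
    linarith
  calc ‖PF z t d k‖ ≤ 100 * B * (1 + d) * (1 / E) := h1
    _ ≤ 100 * (2 * C * ((2 : ℝ) ^ ε * Real.exp (ε * d / 20)) * (2 * (H * P + E * Q))) *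
        ((1 + 2 / ε) * Real.exp (ε * d / 2)) * (1 / E) := by
        rw [hB]
        gcongr
    _ = 100 * (2 * C * (2 : ℝ) ^ ε) * (1 + 2 / ε) * 2 *
        (Real.exp (ε * d / 20) * Real.exp (ε * d / 2)) * (P * (1 / H) + Q) := by
        rw [hHE]
        field_simp
    _ ≤ 100 * (2 * C * (2 : ℝ) ^ ε) * (1 + 2 / ε) * 2 * Real.exp (ε * d) * (P * (1 / H) + Q) := by
        gcongr
    _ = _ := by ring

end Pool.Agent.Q298.KS
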