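import Pool.Agent.Q298.KS.Wt
import Pool.Agent.Y957.VK.Fin1

/-! Project KS (helper240), job MB: the Moebius factors. -/

set_option autoImplicit false

namespace Pool.Agent.Q298.KS

open Finset Pool.Agent.H376R2.MR Pool.Agent.Q240.KS

theorem cpow_ch (k : ℤ) (n : ℕ) (hn : 1 ≤ n) :
    (n : ℂ) ^ (-((k : ℝ) : ℂ) * Complex.I) = ch k (Real.log n) := by
  have hn0 : (n : ℂ) ≠ 0 := by
    have : n ≠ 0 := by omega
    exact_mod_cast this
  unfold ch
  rw [Complex.cpow_def_of_ne_zero hn0]
  have hlog : Complex.log (n : ℂ) = ((Real.log n : ℝ) : ℂ) := (Complex.natCast_log).symm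
  rw [hlog]
  congr 1
  push_cast
  ring

/-- initial sums of the twisted Moebius function -/
noncomputable def mu1 (k : ℤ) (N : ℕ) : ℂ :=
  ∑ n ∈ Icc 1 N, ((ArithmeticFunction.moebius n : ℤ) : ℂ) * ch k (Real.log n)

theorem part_mu (k : ℤ) (z a m : ℕ) (ha : 1 ≤ a) (ham : a ≤ m) :
    ∑ n ∈ Ico a m, (((if n ≤ z then ((ArithmeticFunction.moebius n : ℤ) : ℝ) else 0 : ℝ)) : ℂ) *
        ch k (Real.log n) = if a ≤ z + 1 then mu1 k (min m (z + 1) - 1) - mu1 k (a - 1) else 0 := by
  have h1 : ∀ n, (((if n ≤ z then ((ArithmeticFunction.moebius n : ℤ) : ℝ) else 0 : ℝ)) : ℂ) *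
        ch k (Real.log n) = if n ≤ z then ((ArithmeticFunction.moebius n : ℤ) : ℂ) *
          ch k (Real.log n) else 0 := by
    intro n
    split_ifs
    · push_cast
      rfl
    · simp
  rw [sum_congr rfl (fun n _ => h1 n), ← sum_filter]
  have h2 : (Ico a m).filter (fun n => n ≤ z) = Ico a (min m (z + 1)) := by
    ext n
    simp only [mem_filter, mem_Ico, lt_min_iff]
    omega
  rw [h2]
  split_ifs with h3
  · have h4 : mu1 k (min m (z + 1) - 1) = ∑ n ∈ Ico 1 (min m (z + 1)),
        ((ArithmeticFunction.moebius n : ℤ) : ℂ) * ch k (Real.log n) := by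
      unfold mu1
      apply sum_congr _ (fun _ _ => rfl)
      ext n
      rw [mem_Icc, mem_Ico]
      omega
    have h5 : mu1 k (a - 1) = ∑ n ∈ Ico 1 a,
        ((ArithmeticFunction.moebius n : ℤ) : ℂ) * ch k (Real.log n) := by
      unfold mu1
      apply sum_congr _ (fun _ _ => rfl)
      ext n
      rw [mem_Icc, mem_Ico]
      omega
    rw [h4, h5, eq_sub_iff_add_eq, add_comm]
    exact sum_Ico_consecutive _ ha (le_min ham h3)
  · rw [Ico_eq_empty_of_le (by omega), sum_empty]

theorem mb : S_MB := by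
  intro A B
  obtain ⟨C₀, h⟩ := Pool.Agent.Y957.VK.mob_all (2 * A) B
  set C := |C₀| with hC
  have hC0 : 0 ≤ C := abs_nonneg _
  refine ⟨400 * C * 80 ^ B + 2 * 41 ^ B, ?_, ?_⟩
  · have h1 : (1 : ℝ) ≤ 41 ^ B := one_le_pow₀ (by norm_num)
    have h2 : (0 : ℝ) ≤ 400 * C * 80 ^ B := by positivity
    linarith
  intro z d k hk
  have hd : (0 : ℝ) ≤ d := Nat.cast_nonneg d
  have hP : (0 : ℝ) < (1 + (d : ℝ)) ^ B := by positivity
  rw [le_div_iff₀ hP]
  rcases lt_or_ge d 40 with hd2 | hd2
  · have h1 := norm_PF_le z 0 d k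
    rw [cb_ne (by decide)] at h1
    have h2 : (1 + (d : ℝ)) ^ B ≤ 41 ^ B := by
      apply pow_le_pow_left₀ (by positivity)
      have : (d : ℝ) ≤ 40 := by exact_mod_cast hd2.le
      linarith
    have h3 : (0 : ℝ) ≤ 400 * C * 80 ^ B := by positivity
    calc ‖PF z 0 d k‖ * (1 + (d : ℝ)) ^ B ≤ (2 * 1) * 41 ^ B :=
          mul_le_mul h1 h2 hP.le (by norm_num)
      _ ≤ _ := by linarith
  · have hd2' : (40 : ℝ) ≤ d := by exact_mod_cast hd2
    set x := Real.exp ((d : ℝ) / 40) with hx
    have hx1 : 2.7 ≤ x := by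
      have h1 : Real.exp 1 ≤ x := Real.exp_le_exp.2 (by linarith)
      have h2 := Real.exp_one_gt_d9
      linarith
    have hx2 : Real.exp ((d : ℝ) / 20) = x ^ 2 := by
      rw [hx, ← Real.exp_nat_mul]
      congr 1
      push_cast
      ring
    have hlo : x ≤ ((lo d - 1 : ℕ) : ℝ) := by
      rw [Nat.cast_sub (one_le_lo d)]
      have h1 := le_lo d
      have h2 : Real.exp (((d : ℝ) - 1) / 20) = x ^ 2 * Real.exp (-(1 / 20)) := by
        rw [← hx2, ← Real.exp_add]
        congr 1
        ring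
      have h3 : (19 / 20 : ℝ) ≤ Real.exp (-(1 / 20)) := by
        have := Real.add_one_le_exp (-(1 / 20 : ℝ))
        linarith
      have h4 : x ^ 2 * (19 / 20) ≤ x ^ 2 * Real.exp (-(1 / 20)) := by gcongr
      push_cast
      nlinarith
    -- initial sums
    have hS : ∀ N : ℕ, lo d - 1 ≤ N → N < hi d → ‖mu1 k N‖ ≤
        2 * C * 80 ^ B * x ^ 2 / (1 + (d : ℝ)) ^ B := by
      intro N hN1 hN2
      have hN1' : x ≤ (N : ℝ) := hlo.trans (by exact_mod_cast hN1)
      have hN0 : (0 : ℝ) < N := by linarith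
      have hN2' : 2 ≤ N := by
        have : (2 : ℝ) ≤ N := by linarith
        exact_mod_cast this
      have hpow : |(k : ℝ)| ≤ (N : ℝ) ^ (2 * A) := by
        refine hk.trans ?_
        calc Real.exp (A * d / 20) = x ^ (2 * A) := by
              rw [hx, ← Real.exp_nat_mul]
              congr 1
              push_cast
              ring
          _ ≤ _ := pow_le_pow_left₀ (by linarith) hN1' _
      have h1 := h N (k : ℝ) hN2' hpow
      have h2 : ∑ n ∈ Icc 1 N, ((ArithmeticFunction.moebius n : ℤ) : ℂ) *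
          (n : ℂ) ^ (-((k : ℝ) : ℂ) * Complex.I) = mu1 k N := by
        unfold mu1
        refine sum_congr rfl fun n hn => ?_
        rw [mem_Icc] at hn
        rw [cpow_ch k n hn.1]
      rw [h2] at h1
      refine h1.trans ?_
      have hlog : (d : ℝ) / 40 ≤ Real.log N := by
        rw [Real.le_log_iff_exp_le hN0]
        exact hN1'
      have hlog0 : (0 : ℝ) < Real.log N := by linarith
      have h3 : (1 + (d : ℝ)) / 80 ≤ Real.log N := by linarith
      have h4 : ((1 + (d : ℝ)) / 80) ^ B ≤ Real.log N ^ B := pow_le_pow_left₀ (by positivity) h3 B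
      have h5 : (N : ℝ) ≤ 2 * x ^ 2 := by
        have h6 := le_of_lt_hi hN2
        have h7 : Real.exp (((d : ℝ) + 1) / 20) = Real.exp (1 / 20) * x ^ 2 := by
          rw [← hx2, ← Real.exp_add]
          congr 1
          ring
        have h8 := exp_small (x := 1 / 20) (by norm_num)
        rw [h7] at h6
        refine h6.trans ?_
        gcongr
      calc C₀ * N / Real.log N ^ B ≤ C * (2 * x ^ 2) / ((1 + (d : ℝ)) / 80) ^ B := by
            apply div_le_div₀ (by positivity) _ (by positivity) h4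
            calc C₀ * N ≤ C * N := mul_le_mul_of_nonneg_right (le_abs_self _) hN0.le
              _ ≤ C * (2 * x ^ 2) := by gcongr
        _ = _ := by
            rw [div_pow]
            field_simp
    set T := 2 * C * 80 ^ B * x ^ 2 / (1 + (d : ℝ)) ^ B with hT
    have hT0 : 0 ≤ T := by positivity
    have hpart : ∀ m, lo d ≤ m → m ≤ hi d → ‖∑ n ∈ Ico (lo d) m,
      (((if n ≤ z then ((ArithmeticFunction.moebius n : ℤ) : ℝ) else 0 : ℝ)) : ℂ) *
        ch k (Real.log n)‖ ≤ 2 * T := by
      intro m hm1 hm2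
      have hl := one_le_lo d
      have hlh := lo_le_hi d
      rw [part_mu k z (lo d) m (one_le_lo d) hm1]
      split_ifs with h3
      · refine (norm_sub_le _ _).trans ?_
        have h1 := hS (min m (z + 1) - 1) (by
          have := le_min hm1 h3
          omega) (by
          have : min m (z + 1) ≤ m := min_le_left _ _
          have := le_min hm1 h3
          omega)
        have h2 := hS (lo d - 1) le_rfl (by omega)
        linarith
      · rw [norm_zero]
        positivity
    have h1 := PF_le_of_part0 z d k (2 * T) (by positivity) hpart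
    have h2 : Real.exp (-((d : ℝ) / 20)) = 1 / x ^ 2 := by
      rw [Real.exp_neg, hx2, one_div]
    rw [h2] at h1
    have hx0 : 0 < x := by linarith
    calc ‖PF z 0 d k‖ * (1 + (d : ℝ)) ^ B ≤ 100 * (2 * T) * (1 / x ^ 2) * (1 + (d : ℝ)) ^ B :=
          mul_le_mul_of_nonneg_right h1 hP.le
      _ = 400 * C * 80 ^ B := by
          rw [hT]
          field_simp
          ring
      _ ≤ _ := by
          have : (0 : ℝ) ≤ 2 * 41 ^ B := by positivity
          linarith

end Pool.Agent.Q298.KS
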