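import Pool.Agent.Q298.KS.Wt
import Pool.Agent.H376R2.MR.Phas

/-! Project KS (helper240), job SBV: van der Corput's bound at all polynomial heights. -/

set_option autoImplicit false

namespace Pool.Agent.Q298.KS

open Finset Pool.Agent.H376R2.MR Pool.Agent.Q240.KS

theorem hi_le_three_lo (d : ℕ) : hi d ≤ 3 * lo d := by
  have h1 : 1 ≤ hi d := by unfold hi; omega
  have h2 := le_two_lo (d := d) (n := hi d - 1) (by omega)
  have h3 := one_le_lo d
  omega

theorem sbv : S_SBV := by
  intro M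
  obtain ⟨η, C, hη, hη2, hC, h⟩ := phase_sum (2 * M)
  refine ⟨40 * (2 + 2 * C) + 4, η, by linarith, hη, hη2, ?_⟩
  intro z t d k ht hk hkM
  have hd : (0 : ℝ) ≤ d := Nat.cast_nonneg d
  have hk1 : (1 : ℝ) ≤ |(k : ℝ)| := by
    rw [← Int.cast_abs]
    exact_mod_cast Int.one_le_abs hk
  have hk0 : (0 : ℝ) < |(k : ℝ)| := by linarith
  have hX0 : 0 < Real.exp (-(η * d / 20)) := Real.exp_pos _
  set X := Real.exp (-(η * d / 20)) with hX
  rcases lt_or_ge d 2 with hd2 | hd2
  · have h1 := (norm_PF_le z t d k).trans (mul_le_mul_of_nonneg_left (cb_le t d) (by norm_num))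
    have h2 : (d : ℝ) ≤ 1 := by exact_mod_cast (by omega : d ≤ 1)
    have h3 : 1 / 2 ≤ X := by
      have h4 : -(1 / 2) ≤ -(η * d / 20) := by nlinarith
      have h5 := Real.add_one_le_exp (-(η * d / 20))
      linarith
    have h6 : 0 ≤ 1 / |(k : ℝ)| := by positivity
    calc ‖PF z t d k‖ ≤ 2 * (1 + d) := h1
      _ = 4 * (1 + d) * (1 / 2) := by ring
      _ ≤ (40 * (2 + 2 * C) + 4) * (1 + d) * (1 / |(k : ℝ)| + X) := by
          apply mul_le_mul _ (by linarith) (by norm_num) (by positivity)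
          apply mul_le_mul_of_nonneg_right _ (by positivity)
          linarith
  · have hlo1 : (1 : ℝ) ≤ lo d := by exact_mod_cast one_le_lo d
    have hlo0 : (0 : ℝ) < lo d := by linarith
    have hd2' : (2 : ℝ) ≤ d := by exact_mod_cast hd2
    have hpow : |(k : ℝ)| ≤ (lo d : ℝ) ^ (2 * M) := by
      refine hkM.trans ?_
      calc Real.exp (M * d / 20) ≤ Real.exp (((2 * M : ℕ) : ℝ) * (((d : ℝ) - 1) / 20)) := by
            apply Real.exp_le_exp.2
            push_cast
            have : (0 : ℝ) ≤ M := Nat.cast_nonneg M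
            nlinarith
        _ = Real.exp (((d : ℝ) - 1) / 20) ^ (2 * M) := by rw [← Real.exp_nat_mul]
        _ ≤ _ := pow_le_pow_left₀ (Real.exp_pos _).le (le_lo d) _
    have hrp : (lo d : ℝ) ^ (-η) ≤ 2 * X := by
      calc (lo d : ℝ) ^ (-η) ≤ Real.exp (((d : ℝ) - 1) / 20) ^ (-η) :=
            Real.rpow_le_rpow_of_nonpos (Real.exp_pos _) (le_lo d) (by linarith)
        _ = Real.exp (η / 20) * X := by
            rw [← Real.exp_mul, hX, ← Real.exp_add]
            congr 1
            ring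
        _ ≤ 2 * X := by
            apply mul_le_mul_of_nonneg_right _ hX0.le
            exact exp_small (by linarith)
    set B : ℝ := (2 + 2 * C) * (1 / |(k : ℝ)| + X) with hB
    have hB0 : 0 ≤ B := by positivity
    have hpart : ∀ m, lo d ≤ m → m ≤ hi d →
        ‖∑ n ∈ Ico (lo d) m, ch k (Real.log n) / (n : ℂ)‖ ≤ B := by
      intro m hm1 hm2
      have h1 := h (lo d) m (-(k : ℝ)) (one_le_lo d) hm1 (hm2.trans (hi_le_three_lo d))
        (by rw [abs_neg]; exact hpow)
      have h2 := phas_integral_er (-(k : ℝ)) (Real.log (lo d)) (Real.log m)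
        (by rw [neg_ne_zero]; exact_mod_cast hk)
      rw [abs_neg] at h2
      have h3 : ∑ n ∈ Ico (lo d) m, ch k (Real.log n) / (n : ℂ) =
          (∑ n ∈ Ico (lo d) m, er (-(k : ℝ)) (Real.log n) / (n : ℂ) -
            ∫ s in (Real.log (lo d))..(Real.log m), er (-(k : ℝ)) s) +
            ∫ s in (Real.log (lo d))..(Real.log m), er (-(k : ℝ)) s := by
        rw [sub_add_cancel]
        exact sum_congr rfl fun n _ => by rw [ch_eq_er]
      rw [h3]
      refine (norm_add_le _ _).trans ?_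
      have h4 : C * (lo d : ℝ) ^ (-η) ≤ C * (2 * X) := by gcongr
      have h5 : (2 : ℝ) / |(k : ℝ)| = 2 * (1 / |(k : ℝ)|) := by ring
      rw [h5] at h2
      rw [hB]
      have h6 : 0 ≤ 1 / |(k : ℝ)| := by positivity
      nlinarith [mul_nonneg hC.le h6]
    have h1 := PF_le_of_part' z t d k B hB0 ht hpart
    refine h1.trans ?_
    rw [hB]
    have h2 : 0 ≤ (1 + (d : ℝ)) * (1 / |(k : ℝ)| + X) := by positivity
    calc 40 * ((2 + 2 * C) * (1 / |(k : ℝ)| + X)) * (1 + d) =
          40 * (2 + 2 * C) * ((1 + (d : ℝ)) * (1 / |(k : ℝ)| + X)) := by ring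
      _ ≤ (40 * (2 + 2 * C) + 4) * ((1 + (d : ℝ)) * (1 / |(k : ℝ)| + X)) := by
          apply mul_le_mul_of_nonneg_right _ h2
          linarith
      _ = _ := by ring

end Pool.Agent.Q298.KS
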