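import Pool.Agent.Q298.KS.Base
import Pool.Agent.Q240.KS.Stm1

/-! Project KS (helper240), job TRI: trivial bounds for the factors. -/

set_option autoImplicit false

namespace Pool.Agent.Q298.KS

open Finset Pool.Agent.H376R2.MR Pool.Agent.Q240.KS

/-- size of the weight of type `t` -/
noncomputable def cb (t : Fin 3) (d : ℕ) : ℝ := if t = 2 then 1 + (d : ℝ) else 1

theorem one_le_cb (t : Fin 3) (d : ℕ) : 1 ≤ cb t d := by
  unfold cb
  have : (0 : ℝ) ≤ d := Nat.cast_nonneg d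
  split_ifs <;> linarith

theorem cb_le (t : Fin 3) (d : ℕ) : cb t d ≤ 1 + d := by
  unfold cb
  have : (0 : ℝ) ≤ d := Nat.cast_nonneg d
  split_ifs <;> linarith

theorem cb_ne {t : Fin 3} (ht : t ≠ 2) (d : ℕ) : cb t d = 1 := by
  unfold cb
  rw [if_neg ht]

theorem cf_abs (z : ℕ) (t : Fin 3) (d n : ℕ) (hn : 1 ≤ n) (h : n < hi d) :
    |cf z t d n| ≤ cb t d / n := by
  have h0 : (0 : ℝ) < n := by exact_mod_cast hn
  unfold cf
  rw [abs_div, abs_of_pos h0, abs_mul, abs_of_nonneg (w_nonneg _)]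
  have h1 : |if t = 0 then (if n ≤ z then ((ArithmeticFunction.moebius n : ℤ) : ℝ) else 0)
    else if t = 1 then 1 else Real.log n| ≤ cb t d := by
    have hd : (0 : ℝ) ≤ d := Nat.cast_nonneg d
    by_cases ht0 : t = 0
    · rw [if_pos ht0]
      refine le_trans ?_ (one_le_cb t d)
      split_ifs
      · have := ArithmeticFunction.abs_moebius_le_one (n := n)
        exact_mod_cast this
      · simp
    · rw [if_neg ht0]
      by_cases ht1 : t = 1
      · rw [if_pos ht1, abs_one]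
        exact one_le_cb t d
      · rw [if_neg ht1]
        have ht2 : t = 2 := by
          fin_cases t <;> simp_all
        unfold cb
        rw [if_pos ht2, abs_of_nonneg (Real.log_natCast_nonneg n)]
        have := log_le_of_lt_hi hn h
        linarith
  have h2 := w_le_one (20 * Real.log n - d)
  have h3 := w_nonneg (20 * Real.log n - d)
  have h4 : (0 : ℝ) ≤ cb t d := (zero_le_one).trans (one_le_cb t d)
  gcongr
  calc _ ≤ cb t d * 1 := mul_le_mul h1 h2 h3 h4
    _ = cb t d := mul_one _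

theorem norm_PF_le (z : ℕ) (t : Fin 3) (d : ℕ) (k : ℤ) : ‖PF z t d k‖ ≤ 2 * cb t d := by
  rw [PF_eq]
  refine (norm_sum_le _ _).trans ?_
  have h4 : (0 : ℝ) ≤ cb t d := (zero_le_one).trans (one_le_cb t d)
  calc ∑ n ∈ Ico (lo d) (hi d), ‖((cf z t d n : ℝ) : ℂ) * ch k (Real.log n)‖
      ≤ ∑ n ∈ Ico (lo d) (hi d), cb t d * (1 / n) := by
        refine sum_le_sum fun n hn => ?_
        rw [mem_Ico] at hn
        rw [norm_mul, norm_ch, mul_one, Complex.norm_real, Real.norm_eq_abs]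
        refine (cf_abs z t d n ((one_le_lo d).trans hn.1) hn.2).trans (le_of_eq (by ring))
    _ = cb t d * ∑ n ∈ Ico (lo d) (hi d), (1 : ℝ) / n := by rw [mul_sum]
    _ ≤ cb t d * (1 + 1 / 10) := mul_le_mul_of_nonneg_left (sum_inv_window d) h4
    _ ≤ 2 * cb t d := by linarith

theorem sum_cf_sq_le (z : ℕ) (t : Fin 3) (d : ℕ) :
    ∑ n ∈ sp d, (n : ℝ) * cf z t d n ^ 2 ≤ 2 * cb t d ^ 2 := by
  rw [sum_sp_eq d _ (fun n h1 h => by rw [cf_lo h1 h]; ring)]
  calc ∑ n ∈ Ico (lo d) (hi d), (n : ℝ) * cf z t d n ^ 2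
      ≤ ∑ n ∈ Ico (lo d) (hi d), cb t d ^ 2 * (1 / n) := by
        refine sum_le_sum fun n hn => ?_
        rw [mem_Ico] at hn
        have hn1 : 1 ≤ n := (one_le_lo d).trans hn.1
        have h0 : (0 : ℝ) < n := by exact_mod_cast hn1
        have h1 := cf_abs z t d n hn1 hn.2
        have h2 : cf z t d n ^ 2 ≤ (cb t d / n) ^ 2 := by
          rw [← sq_abs]
          exact pow_le_pow_left₀ (abs_nonneg _) h1 2
        calc (n : ℝ) * cf z t d n ^ 2 ≤ n * (cb t d / n) ^ 2 :=
              mul_le_mul_of_nonneg_left h2 h0.le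
          _ = cb t d ^ 2 * (1 / n) := by
              field_simp
    _ = cb t d ^ 2 * ∑ n ∈ Ico (lo d) (hi d), (1 : ℝ) / n := by rw [mul_sum]
    _ ≤ cb t d ^ 2 * (1 + 1 / 10) := mul_le_mul_of_nonneg_left (sum_inv_window d) (sq_nonneg _)
    _ ≤ 2 * cb t d ^ 2 := by nlinarith [sq_nonneg (cb t d)]

theorem tri : S_TRI := by
  intro z t d k
  have h1 := norm_PF_le z t d k
  have h2 := sum_cf_sq_le z t d
  have h3 := cb_le t d
  have h4 : (0 : ℝ) ≤ cb t d := (zero_le_one).trans (one_le_cb t d)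
  refine ⟨by linarith, fun ht => ?_, ?_, fun ht => ?_⟩
  · rw [cb_ne ht] at h1
    linarith
  · refine h2.trans ?_
    gcongr
  · rw [cb_ne ht] at h2
    linarith

end Pool.Agent.Q298.KS
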