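import Mathlib
import Pool.Agent.Q240.KS.Defs

/-! Project KS (helper240): windows, Abel summation, weights of the factors. -/

set_option autoImplicit false

namespace Pool.Agent.Q298.KS

open Finset Pool.Agent.H376R2.MR Pool.Agent.Q240.KS

theorem w_nonneg (s : ℝ) : 0 ≤ w s := le_max_left _ _

theorem w_le_one (s : ℝ) : w s ≤ 1 := by
  unfold w
  have := abs_nonneg s
  exact max_le (by norm_num) (by linarith)

theorem w_eq_zero {s : ℝ} (h : 1 ≤ |s|) : w s = 0 := by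
  unfold w
  exact max_eq_left (by linarith)

theorem w_lip (s t : ℝ) : |w s - w t| ≤ |s - t| := by
  unfold w
  refine (abs_max_sub_max_le_max 0 (1 - |s|) 0 (1 - |t|)).trans ?_
  simp only [sub_self, abs_zero]
  refine max_le (abs_nonneg _) ?_
  have h1 : 1 - |s| - (1 - |t|) = |t| - |s| := by ring
  rw [h1, abs_sub_comm s t]
  exact abs_abs_sub_abs_le_abs_sub _ _

theorem norm_ch (k : ℤ) (x : ℝ) : ‖ch k x‖ = 1 := by
  unfold ch
  rw [Complex.norm_exp]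
  simp

/-- lower end of the window -/
noncomputable def lo (d : ℕ) : ℕ := ⌈Real.exp (((d : ℝ) - 1) / 20)⌉₊

/-- upper end of the window (exclusive) -/
noncomputable def hi (d : ℕ) : ℕ := ⌊Real.exp (((d : ℝ) + 1) / 20)⌋₊ + 1

theorem one_le_lo (d : ℕ) : 1 ≤ lo d := Nat.ceil_pos.2 (Real.exp_pos _)

theorem le_lo (d : ℕ) : Real.exp (((d : ℝ) - 1) / 20) ≤ lo d := Nat.le_ceil _

theorem lo_lt (d : ℕ) : (lo d : ℝ) < Real.exp (((d : ℝ) - 1) / 20) + 1 :=
  Nat.ceil_lt_add_one (Real.exp_pos _).le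

theorem lt_hi (d : ℕ) : Real.exp (((d : ℝ) + 1) / 20) < hi d := by
  have := Nat.lt_floor_add_one (Real.exp (((d : ℝ) + 1) / 20))
  unfold hi
  push_cast
  exact this

theorem le_of_lt_hi {d n : ℕ} (h : n < hi d) : (n : ℝ) ≤ Real.exp (((d : ℝ) + 1) / 20) := by
  have h1 : n ≤ ⌊Real.exp (((d : ℝ) + 1) / 20)⌋₊ := by unfold hi at h; omega
  exact (Nat.cast_le.2 h1).trans (Nat.floor_le (Real.exp_pos _).le)

theorem lo_le_hi (d : ℕ) : lo d ≤ hi d := by
  have h1 : Real.exp (((d : ℝ) - 1) / 20) ≤ (hi d : ℝ) :=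
    (Real.exp_le_exp.2 (by linarith)).trans (lt_hi d).le
  exact Nat.ceil_le.2 h1

theorem log_lt_of_lt_lo {d n : ℕ} (h1 : 1 ≤ n) (h : n < lo d) : Real.log n < ((d : ℝ) - 1) / 20 := by
  have h0 : (0 : ℝ) < n := by exact_mod_cast h1
  have h2 : (n : ℝ) < Real.exp (((d : ℝ) - 1) / 20) := Nat.lt_ceil.1 h
  rwa [Real.log_lt_iff_lt_exp h0]

theorem le_log_of_lo_le {d n : ℕ} (h : lo d ≤ n) : ((d : ℝ) - 1) / 20 ≤ Real.log n := by
  have h1 : 1 ≤ n := (one_le_lo d).trans h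
  have h0 : (0 : ℝ) < n := by exact_mod_cast h1
  rw [Real.le_log_iff_exp_le h0]
  exact (le_lo d).trans (by exact_mod_cast h)

theorem log_le_of_lt_hi {d n : ℕ} (h1 : 1 ≤ n) (h : n < hi d) : Real.log n ≤ ((d : ℝ) + 1) / 20 := by
  have h0 : (0 : ℝ) < n := by exact_mod_cast h1
  rw [Real.log_le_iff_le_exp h0]
  exact le_of_lt_hi h

theorem lt_log_of_hi_le {d n : ℕ} (h : hi d ≤ n) : ((d : ℝ) + 1) / 20 < Real.log n := by
  have h1 : Real.exp (((d : ℝ) + 1) / 20) < n := (lt_hi d).trans_le (by exact_mod_cast h)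
  have h0 : (0 : ℝ) < n := (Real.exp_pos _).trans h1
  rwa [Real.lt_log_iff_exp_lt h0]

/-- the window weight vanishes below `lo` -/
theorem w_lo {d n : ℕ} (h1 : 1 ≤ n) (h : n < lo d) : w (20 * Real.log n - d) = 0 := by
  have := log_lt_of_lt_lo h1 h
  apply w_eq_zero
  rw [abs_of_nonpos (by linarith)]
  linarith

/-- the window weight vanishes from `hi` on -/
theorem w_hi {d n : ℕ} (h : hi d ≤ n) : w (20 * Real.log n - d) = 0 := by
  have := lt_log_of_hi_le h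
  apply w_eq_zero
  rw [abs_of_nonneg (by linarith)]
  linarith

theorem cf_lo {z : ℕ} {t : Fin 3} {d n : ℕ} (h1 : 1 ≤ n) (h : n < lo d) : cf z t d n = 0 := by
  unfold cf
  rw [w_lo h1 h]
  simp

theorem sp_eq (d : ℕ) : sp d = Ico 1 (hi d) := by
  ext n
  simp only [sp, hi, mem_Icc, mem_Ico]
  omega

theorem sum_sp_eq {M : Type*} [AddCommMonoid M] (d : ℕ) (f : ℕ → M)
    (h : ∀ n, 1 ≤ n → n < lo d → f n = 0) : ∑ n ∈ sp d, f n = ∑ n ∈ Ico (lo d) (hi d), f n := by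
  rw [sp_eq]
  symm
  apply sum_subset
  · intro n hn
    rw [mem_Ico] at hn ⊢
    exact ⟨(one_le_lo d).trans hn.1, hn.2⟩
  · intro n hn hn'
    rw [mem_Ico] at hn hn'
    exact h n hn.1 (by omega)

theorem PF_eq (z : ℕ) (t : Fin 3) (d : ℕ) (k : ℤ) :
    PF z t d k = ∑ n ∈ Ico (lo d) (hi d), ((cf z t d n : ℝ) : ℂ) * ch k (Real.log n) := by
  unfold PF DP
  apply sum_sp_eq
  intro n h1 h
  simp [cf_lo (z := z) (t := t) h1 h]

theorem sum_inv_aux (a : ℕ) (ha : 1 ≤ a) (m : ℕ) :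
    ∑ n ∈ Ico a (a + 1 + m), (1 : ℝ) / n ≤ 1 / a + Real.log ((a + m : ℕ) : ℝ) - Real.log a := by
  have ha0 : (0 : ℝ) < a := by exact_mod_cast ha
  induction m with
  | zero => simp
  | succ m ih =>
    rw [← add_assoc, sum_Ico_succ_top (by omega)]
    have h1 : (0 : ℝ) < ((a + m : ℕ) : ℝ) := by push_cast; positivity
    have h2 : (0 : ℝ) < ((a + 1 + m : ℕ) : ℝ) := by push_cast; positivity
    have h3 := Real.one_sub_inv_le_log_of_pos (div_pos h2 h1)
    rw [Real.log_div h2.ne' h1.ne'] at h3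
    have h4 : 1 - (((a + 1 + m : ℕ) : ℝ) / ((a + m : ℕ) : ℝ))⁻¹ = 1 / ((a + 1 + m : ℕ) : ℝ) := by
      rw [inv_div]
      field_simp
      push_cast
      ring
    rw [h4] at h3
    have h5 : ((a + (m + 1) : ℕ) : ℝ) = ((a + 1 + m : ℕ) : ℝ) := by push_cast; ring
    rw [h5]
    linarith

/-- the sum of `1/n` over a window -/
theorem sum_inv_window (d : ℕ) : ∑ n ∈ Ico (lo d) (hi d), (1 : ℝ) / n ≤ 1 + 1 / 10 := by
  rcases lt_or_ge (lo d) (hi d) with h | h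
  · obtain ⟨m, hm⟩ : ∃ m, hi d = lo d + 1 + m := ⟨hi d - (lo d + 1), by omega⟩
    have h1 := sum_inv_aux (lo d) (one_le_lo d) m
    rw [← hm] at h1
    have h2 : Real.log ((lo d + m : ℕ) : ℝ) ≤ ((d : ℝ) + 1) / 20 :=
      log_le_of_lt_hi (by have := one_le_lo d; omega) (by omega)
    have h3 := le_log_of_lo_le (le_refl (lo d))
    have h4 : (1 : ℝ) / lo d ≤ 1 := by
      rw [div_le_one (by exact_mod_cast one_le_lo d)]
      exact_mod_cast one_le_lo d
    linarith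
  · rw [Ico_eq_empty_of_le h]
    simp only [sum_empty]
    norm_num

/-- Abel summation -/
theorem abel_id (g : ℕ → ℝ) (z : ℕ → ℂ) (a m : ℕ) (ham : a ≤ m) :
    ∑ n ∈ Ico a m, (g n : ℂ) * z n = (g m : ℂ) * ∑ n ∈ Ico a m, z n -
      ∑ n ∈ Ico a m, ((g (n + 1) - g n : ℝ) : ℂ) * ∑ j ∈ Ico a (n + 1), z j := by
  induction m, ham using Nat.le_induction with
  | base => simp
  | succ m hm ih =>
    rw [sum_Ico_succ_top hm, sum_Ico_succ_top hm, ih,
      sum_Ico_succ_top hm (fun n => ((g (n + 1) - g n : ℝ) : ℂ) * ∑ j ∈ Ico a (n + 1), z j),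
      sum_Ico_succ_top hm]
    push_cast
    ring

theorem abel_le (g : ℕ → ℝ) (z : ℕ → ℂ) (B : ℝ) (a b : ℕ) (hab : a ≤ b)
    (hB : ∀ m, a ≤ m → m ≤ b → ‖∑ n ∈ Ico a m, z n‖ ≤ B) :
    ‖∑ n ∈ Ico a b, (g n : ℂ) * z n‖ ≤ B * (|g b| + ∑ n ∈ Ico a b, |g (n + 1) - g n|) := by
  rw [abel_id g z a b hab]
  refine (norm_sub_le _ _).trans ?_
  rw [mul_add]
  apply add_le_add
  · rw [norm_mul, Complex.norm_real, Real.norm_eq_abs, mul_comm]
    exact mul_le_mul_of_nonneg_right (hB b hab le_rfl) (abs_nonneg _)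
  · rw [mul_sum]
    refine (norm_sum_le _ _).trans (sum_le_sum fun n hn => ?_)
    rw [mem_Ico] at hn
    rw [norm_mul, Complex.norm_real, Real.norm_eq_abs, mul_comm]
    exact mul_le_mul_of_nonneg_right (hB (n + 1) (by omega) (by omega)) (abs_nonneg _)

theorem log_succ_sub (n : ℕ) (hn : 1 ≤ n) : 0 ≤ Real.log ((n + 1 : ℕ) : ℝ) - Real.log n ∧
    Real.log ((n + 1 : ℕ) : ℝ) - Real.log n ≤ 1 / n := by
  have h0 : (0 : ℝ) < n := by exact_mod_cast hn
  have h1 : (0 : ℝ) < ((n + 1 : ℕ) : ℝ) := by push_cast; linarith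
  constructor
  · have := Real.log_le_log h0 (show (n : ℝ) ≤ ((n + 1 : ℕ) : ℝ) by push_cast; linarith)
    linarith
  · have h3 := Real.log_le_sub_one_of_pos (div_pos h1 h0)
    rw [Real.log_div h1.ne' h0.ne'] at h3
    refine h3.trans (le_of_eq ?_)
    push_cast
    field_simp
    ring

/-- the window weight -/
noncomputable def hw (d n : ℕ) : ℝ := w (20 * Real.log n - d)

theorem hw_nonneg (d n : ℕ) : 0 ≤ hw d n := w_nonneg _
theorem hw_le_one (d n : ℕ) : hw d n ≤ 1 := w_le_one _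

theorem hw_hi (d : ℕ) : hw d (hi d) = 0 := w_hi le_rfl

theorem hw_var (d n : ℕ) (hn : 1 ≤ n) : |hw d (n + 1) - hw d n| ≤ 20 / n := by
  unfold hw
  refine (w_lip _ _).trans ?_
  have h := log_succ_sub n hn
  have e : 20 * Real.log ((n + 1 : ℕ) : ℝ) - d - (20 * Real.log n - d) =
      20 * (Real.log ((n + 1 : ℕ) : ℝ) - Real.log n) := by ring
  rw [e, abs_of_nonneg (by linarith [h.1])]
  have : (20 : ℝ) / n = 20 * (1 / n) := by ring
  rw [this]
  linarith [h.2]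

/-- the window weight times a logarithm -/
noncomputable def hl (d n : ℕ) : ℝ := Real.log n * w (20 * Real.log n - d)

theorem hl_nonneg (d n : ℕ) : 0 ≤ hl d n := mul_nonneg (Real.log_natCast_nonneg n) (w_nonneg _)

theorem hl_le (d n : ℕ) (hn : 1 ≤ n) (h : n < hi d) : hl d n ≤ 1 + d := by
  unfold hl
  have h1 := log_le_of_lt_hi hn h
  have h2 : 0 ≤ Real.log (n : ℝ) := Real.log_natCast_nonneg n
  have h3 := w_le_one (20 * Real.log n - d)
  have h4 : (0 : ℝ) ≤ d := Nat.cast_nonneg d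
  nlinarith

theorem hl_hi (d : ℕ) : hl d (hi d) = 0 := by
  unfold hl
  rw [w_hi le_rfl, mul_zero]

theorem hl_var (d n : ℕ) (hn : 1 ≤ n) (h : n < hi d) :
    |hl d (n + 1) - hl d n| ≤ (2 + (d : ℝ)) / n := by
  have h0 : (0 : ℝ) < n := by exact_mod_cast hn
  have e : hl d (n + 1) - hl d n =
      (Real.log ((n + 1 : ℕ) : ℝ) - Real.log n) * hw d (n + 1) +
      Real.log n * (hw d (n + 1) - hw d n) := by
    unfold hl hw
    ring
  rw [e]
  have h1 := log_succ_sub n hn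
  have h2 := hw_var d n hn
  have h3 := log_le_of_lt_hi hn h
  have h4 : 0 ≤ Real.log (n : ℝ) := Real.log_natCast_nonneg n
  have h5 := hw_nonneg d (n + 1)
  have h6 := hw_le_one d (n + 1)
  refine (abs_add_le _ _).trans ?_
  rw [abs_mul, abs_mul, abs_of_nonneg h1.1, abs_of_nonneg h5, abs_of_nonneg h4]
  have h7 : (Real.log ((n + 1 : ℕ) : ℝ) - Real.log n) * hw d (n + 1) ≤ 1 / n * 1 :=
    mul_le_mul h1.2 h6 h5 (by positivity)
  have h8 : Real.log n * |hw d (n + 1) - hw d n| ≤ ((d : ℝ) + 1) / 20 * (20 / n) :=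
    mul_le_mul h3 h2 (abs_nonneg _) (by positivity)
  have h9 : (1 : ℝ) / n * 1 + ((d : ℝ) + 1) / 20 * (20 / n) = (2 + (d : ℝ)) / n := by
    field_simp
    ring
  linarith

/-- Abel summation for a weight with variation at most `L/n` that vanishes at the end of the window -/
theorem abel_window (d : ℕ) (g : ℕ → ℝ) (L B : ℝ) (z : ℕ → ℂ) (hB0 : 0 ≤ B) (hL : 0 ≤ L)
    (hg : g (hi d) = 0) (hv : ∀ n, lo d ≤ n → n < hi d → |g (n + 1) - g n| ≤ L / n)
    (hB : ∀ m, lo d ≤ m → m ≤ hi d → ‖∑ n ∈ Ico (lo d) m, z n‖ ≤ B) :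
    ‖∑ n ∈ Ico (lo d) (hi d), (g n : ℂ) * z n‖ ≤ 2 * B * L := by
  refine (abel_le g z B _ _ (lo_le_hi d) hB).trans ?_
  rw [hg, abs_zero, zero_add]
  have h1 : ∑ n ∈ Ico (lo d) (hi d), |g (n + 1) - g n| ≤ L * (1 + 1 / 10) := by
    calc ∑ n ∈ Ico (lo d) (hi d), |g (n + 1) - g n|
        ≤ ∑ n ∈ Ico (lo d) (hi d), L * (1 / n) := by
          refine sum_le_sum fun n hn => ?_
          rw [mem_Ico] at hn
          refine (hv n hn.1 hn.2).trans (le_of_eq (by ring))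
      _ = L * ∑ n ∈ Ico (lo d) (hi d), (1 : ℝ) / n := by rw [mul_sum]
      _ ≤ _ := mul_le_mul_of_nonneg_left (sum_inv_window d) hL
  calc B * ∑ n ∈ Ico (lo d) (hi d), |g (n + 1) - g n| ≤ B * (L * (1 + 1 / 10)) :=
        mul_le_mul_of_nonneg_left h1 hB0
    _ ≤ 2 * B * L := by nlinarith [mul_nonneg hB0 hL]

/-- variation of a weight divided by `n` -/
theorem var_div (d : ℕ) (g : ℕ → ℝ) (L G : ℝ) (hG : 0 ≤ G) (hL : 0 ≤ L)
    (hg : ∀ n, lo d ≤ n → n < hi d → |g n| ≤ G)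
    (hv : ∀ n, lo d ≤ n → n < hi d → |g (n + 1) - g n| ≤ L / n) (n : ℕ) (h1 : lo d ≤ n)
    (h2 : n < hi d) :
    |g (n + 1) / ((n + 1 : ℕ) : ℝ) - g n / n| ≤ ((L + G) * Real.exp (-(((d : ℝ) - 1) / 20))) / n := by
  have hn1 : 1 ≤ n := (one_le_lo d).trans h1
  have h0 : (0 : ℝ) < n := by exact_mod_cast hn1
  have h0' : (0 : ℝ) < ((n + 1 : ℕ) : ℝ) := by push_cast; linarith
  have e : g (n + 1) / ((n + 1 : ℕ) : ℝ) - g n / n =
      (g (n + 1) - g n) / ((n + 1 : ℕ) : ℝ) - g n / (n * ((n + 1 : ℕ) : ℝ)) := by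
    field_simp
    push_cast
    ring
  rw [e]
  have h3 : (1 : ℝ) / ((n + 1 : ℕ) : ℝ) ≤ Real.exp (-(((d : ℝ) - 1) / 20)) := by
    rw [Real.exp_neg, ← one_div]
    apply one_div_le_one_div_of_le (Real.exp_pos _)
    have h5 := le_lo d
    have h6 : (lo d : ℝ) ≤ n := by exact_mod_cast h1
    push_cast
    linarith
  refine (abs_sub _ _).trans ?_
  rw [abs_div, abs_div, abs_of_pos h0', abs_of_pos (mul_pos h0 h0')]
  have h7 : |g (n + 1) - g n| / ((n + 1 : ℕ) : ℝ) ≤ L / n * Real.exp (-(((d : ℝ) - 1) / 20)) := by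
    rw [div_eq_mul_one_div]
    exact mul_le_mul (hv n h1 h2) h3 (by positivity) (by positivity)
  have h8 : |g n| / (n * ((n + 1 : ℕ) : ℝ)) ≤ G / n * Real.exp (-(((d : ℝ) - 1) / 20)) := by
    have : |g n| / (n * ((n + 1 : ℕ) : ℝ)) = |g n| / n * (1 / ((n + 1 : ℕ) : ℝ)) := by
      field_simp
    rw [this]
    apply mul_le_mul _ h3 (by positivity) (by positivity)
    gcongr
    exact hg n h1 h2
  calc _ ≤ L / n * Real.exp (-(((d : ℝ) - 1) / 20)) + G / n * Real.exp (-(((d : ℝ) - 1) / 20)) :=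
        add_le_add h7 h8
    _ = _ := by ring

end Pool.Agent.Q298.KS
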