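import Pool.Agent.Q298.KS.Base
import Pool.Agent.Q298.KS.Tri

/-! Project KS (helper240): factors from partial sums. -/

set_option autoImplicit false

namespace Pool.Agent.Q298.KS

open Finset Pool.Agent.H376R2.MR Pool.Agent.Q240.KS

theorem ch_eq_er (k : ℤ) (x : ℝ) : ch k x = er (-(k : ℝ)) x := by
  unfold ch er
  congr 1
  push_cast
  ring

theorem exp_small {x : ℝ} (h : x ≤ 1 / 10) : Real.exp x ≤ 2 := by
  have h1 : x ≤ Real.log 2 := by
    have := Real.log_two_gt_d9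
    linarith
  calc Real.exp x ≤ Real.exp (Real.log 2) := Real.exp_le_exp.2 h1
    _ = 2 := Real.exp_log (by norm_num)

theorem exp_lo (d : ℕ) : Real.exp (-(((d : ℝ) - 1) / 20)) ≤ 2 * Real.exp (-((d : ℝ) / 20)) := by
  have e : -(((d : ℝ) - 1) / 20) = 1 / 20 + -((d : ℝ) / 20) := by ring
  rw [e, Real.exp_add]
  have := exp_small (x := 1 / 20) (by norm_num)
  gcongr

theorem le_two_lo {d n : ℕ} (h : n < hi d) : n ≤ 2 * lo d := by
  have h1 := le_of_lt_hi h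
  have h2 : Real.exp (((d : ℝ) + 1) / 20) = Real.exp (1 / 10) * Real.exp (((d : ℝ) - 1) / 20) := by
    rw [← Real.exp_add]
    congr 1
    ring
  have h3 := exp_small (x := 1 / 10) le_rfl
  have h4 := le_lo d
  have h5 : (n : ℝ) ≤ 2 * (lo d : ℝ) := by
    refine h1.trans ?_
    rw [h2]
    exact mul_le_mul h3 h4 (Real.exp_pos _).le (by norm_num)
  exact_mod_cast h5

/-- the smooth weights -/
noncomputable def gw (t : Fin 3) (d n : ℕ) : ℝ := if t = 1 then hw d n else hl d n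

theorem cf_gw {t : Fin 3} (ht : t ≠ 0) (z d n : ℕ) : cf z t d n = gw t d n / n := by
  unfold cf gw hw hl
  rw [if_neg ht]
  split_ifs
  · rw [one_mul]
  · rfl

theorem gw_abs {t : Fin 3} {d n : ℕ} (hn : 1 ≤ n) (h : n < hi d) : |gw t d n| ≤ 1 + d := by
  unfold gw
  have h0 : (0 : ℝ) ≤ d := Nat.cast_nonneg d
  split_ifs
  · rw [abs_of_nonneg (hw_nonneg d n)]
    have := hw_le_one d n
    linarith
  · rw [abs_of_nonneg (hl_nonneg d n)]
    exact hl_le d n hn h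

theorem gw_var {t : Fin 3} {d n : ℕ} (hn : 1 ≤ n) (h : n < hi d) :
    |gw t d (n + 1) - gw t d n| ≤ (20 * (1 + (d : ℝ))) / n := by
  have h0 : (0 : ℝ) ≤ d := Nat.cast_nonneg d
  have h1 : (0 : ℝ) < n := by exact_mod_cast hn
  unfold gw
  split_ifs
  · refine (hw_var d n hn).trans ?_
    gcongr
    linarith
  · refine (hl_var d n hn h).trans ?_
    gcongr
    linarith

theorem gw_hi (t : Fin 3) (d : ℕ) : gw t d (hi d) = 0 := by
  unfold gw
  split_ifs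
  · exact hw_hi d
  · exact hl_hi d

/-- a smooth factor from the partial sums of `n^{-ik}` -/
theorem PF_le_of_part (z : ℕ) (t : Fin 3) (d : ℕ) (k : ℤ) (B : ℝ) (hB0 : 0 ≤ B) (ht : t ≠ 0)
    (hB : ∀ m, lo d ≤ m → m ≤ hi d → ‖∑ n ∈ Ico (lo d) m, ch k (Real.log n)‖ ≤ B) :
    ‖PF z t d k‖ ≤ 100 * B * (1 + d) * Real.exp (-((d : ℝ) / 20)) := by
  have h0 : (0 : ℝ) ≤ d := Nat.cast_nonneg d
  rw [PF_eq]
  have e : ∑ n ∈ Ico (lo d) (hi d), ((cf z t d n : ℝ) : ℂ) * ch k (Real.log n) =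
      ∑ n ∈ Ico (lo d) (hi d), (((fun n : ℕ => gw t d n / (n : ℝ)) n : ℝ) : ℂ) *
        (fun n : ℕ => ch k (Real.log n)) n := by
    refine sum_congr rfl fun n _ => ?_
    rw [cf_gw ht]
  rw [e]
  have h1 := abel_window d (fun n : ℕ => gw t d n / (n : ℝ))
    ((20 * (1 + (d : ℝ)) + (1 + d)) * Real.exp (-(((d : ℝ) - 1) / 20))) B
    (fun n : ℕ => ch k (Real.log n)) hB0 (by positivity) (by simp only [gw_hi, zero_div])
    (fun n hn1 hn2 => var_div d (gw t d) (20 * (1 + (d : ℝ))) (1 + d) (by positivity) (by positivity)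
      (fun n h1 h2 => gw_abs ((one_le_lo d).trans h1) h2)
      (fun n h1 h2 => gw_var ((one_le_lo d).trans h1) h2) n hn1 hn2) hB
  refine h1.trans ?_
  have h2 := exp_lo d
  have h3 : 0 < Real.exp (-((d : ℝ) / 20)) := Real.exp_pos _
  calc 2 * B * ((20 * (1 + (d : ℝ)) + (1 + d)) * Real.exp (-(((d : ℝ) - 1) / 20)))
      ≤ 2 * B * ((20 * (1 + (d : ℝ)) + (1 + d)) * (2 * Real.exp (-((d : ℝ) / 20)))) := by gcongr
    _ = 84 * (B * (1 + d) * Real.exp (-((d : ℝ) / 20))) := by ring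
    _ ≤ 100 * (B * (1 + d) * Real.exp (-((d : ℝ) / 20))) := by
        have : 0 ≤ B * (1 + (d : ℝ)) * Real.exp (-((d : ℝ) / 20)) := by positivity
        linarith
    _ = _ := by ring

/-- a smooth factor from the partial sums of `n^{-1-ik}` -/
theorem PF_le_of_part' (z : ℕ) (t : Fin 3) (d : ℕ) (k : ℤ) (B : ℝ) (hB0 : 0 ≤ B) (ht : t ≠ 0)
    (hB : ∀ m, lo d ≤ m → m ≤ hi d → ‖∑ n ∈ Ico (lo d) m, ch k (Real.log n) / (n : ℂ)‖ ≤ B) :
    ‖PF z t d k‖ ≤ 40 * B * (1 + d) := by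
  have h0 : (0 : ℝ) ≤ d := Nat.cast_nonneg d
  rw [PF_eq]
  have e : ∑ n ∈ Ico (lo d) (hi d), ((cf z t d n : ℝ) : ℂ) * ch k (Real.log n) =
      ∑ n ∈ Ico (lo d) (hi d), ((gw t d n : ℝ) : ℂ) *
        (fun n : ℕ => ch k (Real.log n) / (n : ℂ)) n := by
    refine sum_congr rfl fun n _ => ?_
    rw [cf_gw ht]
    push_cast
    ring
  rw [e]
  have h1 := abel_window d (gw t d) (20 * (1 + (d : ℝ))) B
    (fun n : ℕ => ch k (Real.log n) / (n : ℂ)) hB0 (by positivity) (gw_hi t d)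
    (fun n hn1 hn2 => gw_var ((one_le_lo d).trans hn1) hn2) hB
  refine h1.trans (le_of_eq ?_)
  ring

/-- a Moebius factor from the partial sums of `μ(n) n^{-ik}`, `n ≤ z` -/
theorem PF_le_of_part0 (z : ℕ) (d : ℕ) (k : ℤ) (B : ℝ) (hB0 : 0 ≤ B)
    (hB : ∀ m, lo d ≤ m → m ≤ hi d → ‖∑ n ∈ Ico (lo d) m,
      (((if n ≤ z then ((ArithmeticFunction.moebius n : ℤ) : ℝ) else 0 : ℝ)) : ℂ) *
        ch k (Real.log n)‖ ≤ B) :
    ‖PF z 0 d k‖ ≤ 100 * B * Real.exp (-((d : ℝ) / 20)) := by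
  have h0 : (0 : ℝ) ≤ d := Nat.cast_nonneg d
  rw [PF_eq]
  have e : ∑ n ∈ Ico (lo d) (hi d), ((cf z 0 d n : ℝ) : ℂ) * ch k (Real.log n) =
      ∑ n ∈ Ico (lo d) (hi d), (((fun n : ℕ => hw d n / (n : ℝ)) n : ℝ) : ℂ) *
        (fun n : ℕ => (((if n ≤ z then ((ArithmeticFunction.moebius n : ℤ) : ℝ) else 0 : ℝ)) : ℂ) *
        ch k (Real.log n)) n := by
    refine sum_congr rfl fun n _ => ?_
    unfold cf hw
    rw [if_pos rfl]
    push_cast
    ring
  rw [e]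
  have h1 := abel_window d (fun n : ℕ => hw d n / (n : ℝ))
    ((20 + 1) * Real.exp (-(((d : ℝ) - 1) / 20))) B _ hB0 (by positivity)
    (by simp only [hw_hi, zero_div])
    (fun n hn1 hn2 => var_div d (hw d) 20 1 (by norm_num) (by norm_num)
      (fun n h1 h2 => by rw [abs_of_nonneg (hw_nonneg d n)]; exact hw_le_one d n)
      (fun n h1 h2 => hw_var d n ((one_le_lo d).trans h1)) n hn1 hn2) hB
  refine h1.trans ?_
  have h2 := exp_lo d
  have h3 : 0 < Real.exp (-((d : ℝ) / 20)) := Real.exp_pos _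
  calc 2 * B * ((20 + 1) * Real.exp (-(((d : ℝ) - 1) / 20)))
      ≤ 2 * B * ((20 + 1) * (2 * Real.exp (-((d : ℝ) / 20)))) := by gcongr
    _ = 84 * (B * Real.exp (-((d : ℝ) / 20))) := by ring
    _ ≤ 100 * (B * Real.exp (-((d : ℝ) / 20))) := by
        have : 0 ≤ B * Real.exp (-((d : ℝ) / 20)) := by positivity
        linarith
    _ = _ := by ring

end Pool.Agent.Q298.KS
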